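import Pool.Agent.W711.HT.Stm

/-!
# Newton interpolation of the sums of an analytic function: algebra and Cauchy integrals
-/

set_option autoImplicit false

namespace Pool.Agent.W176.HTN

open Filter Finset Topology Metric
open scoped Real

theorem prod_div_fact (n j : ℕ) :
    (∏ i ∈ range (j + 1), ((n : ℂ) - i)) / ((j + 1).factorial : ℂ) = (n.choose (j + 1) : ℂ) := by
  rw [← descPochhammer_eval_eq_prod_range, descPochhammer_eval_eq_descFactorial,
    Nat.descFactorial_eq_factorial_mul_choose, Nat.cast_mul]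
  have h : ((j + 1).factorial : ℂ) ≠ 0 := by exact_mod_cast (j + 1).factorial_ne_zero
  field_simp

/-- Newton forward formula for sums -/
theorem newton_sum (f : ℕ → ℂ) (D n : ℕ) (h : n ≤ D) :
    ∑ i ∈ range n, f i = ∑ j ∈ range D,
      (∑ i ∈ range (j + 1), (-1 : ℂ) ^ (j - i) * (j.choose i : ℂ) * f i) *
        ((∏ i ∈ range (j + 1), ((n : ℂ) - i)) / ((j + 1).factorial : ℂ)) := by
  simp only [prod_div_fact]
  have key : ∀ n : ℕ, f n = ∑ k ∈ range (n + 1), (n.choose k : ℂ) *
      (∑ i ∈ range (k + 1), (-1 : ℂ) ^ (k - i) * (k.choose i : ℂ) * f i) := by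
    intro n
    have h1 := shift_eq_sum_fwdDiff_iter (h := (1 : ℕ)) f n 0
    simp only [fwdDiff_iter_eq_sum_shift] at h1
    simpa using h1
  induction n with
  | zero => simp
  | succ n ih =>
    rw [sum_range_succ, ih (by omega), key n]
    have h2 : ∑ k ∈ range (n + 1), (n.choose k : ℂ) *
        (∑ i ∈ range (k + 1), (-1 : ℂ) ^ (k - i) * (k.choose i : ℂ) * f i) =
        ∑ k ∈ range D, (n.choose k : ℂ) *
        (∑ i ∈ range (k + 1), (-1 : ℂ) ^ (k - i) * (k.choose i : ℂ) * f i) := by
      apply sum_subset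
      · intro x hx
        simp only [Finset.mem_range] at hx ⊢
        omega
      · intro x _ hx2
        have : n.choose x = 0 := Nat.choose_eq_zero_of_lt (by simpa using hx2)
        simp [this]
    rw [h2, ← sum_add_distrib]
    refine sum_congr rfl fun j _ => ?_
    rw [Nat.choose_succ_succ]
    push_cast
    ring

/-- partial fractions -/
theorem pf (ζ h : ℂ) (j : ℕ) : ∀ x : ℂ, (∀ i : ℕ, i ≤ j → ζ - (x + i * h) ≠ 0) →
    ∑ i ∈ range (j + 1), (-1 : ℂ) ^ (j - i) * (j.choose i : ℂ) * (ζ - (x + i * h))⁻¹ =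
      j.factorial * h ^ j / ∏ i ∈ range (j + 1), (ζ - (x + i * h)) := by
  have key : ∀ (j : ℕ) (x : ℂ), ∑ i ∈ range (j + 1), (-1 : ℂ) ^ (j - i) * (j.choose i : ℂ) *
      (ζ - (x + i * h))⁻¹ = (fwdDiff h)^[j] (fun y => (ζ - y)⁻¹) x := by
    intro j x
    rw [fwdDiff_iter_eq_sum_shift]
    refine sum_congr rfl fun i _ => ?_
    simp
  induction j with
  | zero => intro x _; simp
  | succ j ih =>
    intro x hx
    rw [key, Function.iterate_succ_apply', fwdDiff, ← key, ← key, ih, ih]
    · have e1 : ∏ i ∈ range (j + 1), (ζ - (x + h + (i : ℂ) * h)) =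
          (∏ i ∈ range j, (ζ - (x + ((i + 1 : ℕ) : ℂ) * h))) * (ζ - (x + ((j + 1 : ℕ) : ℂ) * h)) := by
        rw [prod_range_succ]
        congr 1
        · refine prod_congr rfl fun i _ => ?_
          push_cast; ring
        · push_cast; ring
      have e2 : ∏ i ∈ range (j + 1), (ζ - (x + (i : ℂ) * h)) =
          (∏ i ∈ range j, (ζ - (x + ((i + 1 : ℕ) : ℂ) * h))) * (ζ - x) := by
        rw [prod_range_succ']
        simp
      have e3 : ∏ i ∈ range (j + 1 + 1), (ζ - (x + (i : ℂ) * h)) =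
          (∏ i ∈ range j, (ζ - (x + ((i + 1 : ℕ) : ℂ) * h))) * (ζ - (x + ((j + 1 : ℕ) : ℂ) * h)) *
            (ζ - x) := by
        rw [prod_range_succ', prod_range_succ]
        simp
      rw [e1, e2, e3]
      have n1 : (∏ i ∈ range j, (ζ - (x + ((i + 1 : ℕ) : ℂ) * h))) ≠ 0 := by
        rw [prod_ne_zero_iff]
        intro i hi
        exact hx (i + 1) (by simp only [Finset.mem_range] at hi; omega)
      have n2 : (ζ - (x + ((j + 1 : ℕ) : ℂ) * h)) ≠ 0 := hx (j + 1) le_rfl
      have n3 : ζ - x ≠ 0 := by simpa using hx 0 (by omega)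
      rw [Nat.factorial_succ]
      generalize (∏ i ∈ range j, (ζ - (x + ((i + 1 : ℕ) : ℂ) * h))) = A at n1 ⊢
      have e4 : (ζ - (x + ((j + 1 : ℕ) : ℂ) * h)) = (ζ - x) - (j + 1) * h := by push_cast; ring
      rw [e4] at n2 ⊢
      generalize ζ - x = u at n2 n3 ⊢
      rw [div_sub_div _ _ (mul_ne_zero n1 n2) (mul_ne_zero n1 n3),
        div_eq_div_iff (mul_ne_zero (mul_ne_zero n1 n2) (mul_ne_zero n1 n3))
          (mul_ne_zero (mul_ne_zero n1 n2) n3)]
      push_cast
      ring
    · intro i hi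
      exact hx i (by omega)
    · intro i hi
      have := hx (i + 1) (by omega)
      push_cast at this
      intro h0
      apply this
      rw [← h0]; ring

/-- finite differences as Cauchy integrals -/
theorem cauchyDiff {f : ℂ → ℂ} {c : ℂ} {r : ℝ} (hr : 0 ≤ r)
    (hf : DifferentiableOn ℂ f (closedBall c r)) (x h : ℂ) (j : ℕ)
    (hx : ∀ i : ℕ, i ≤ j → x + i * h ∈ ball c r) :
    ∑ i ∈ range (j + 1), (-1 : ℂ) ^ (j - i) * (j.choose i : ℂ) * f (x + i * h) =
      (2 * π * Complex.I : ℂ)⁻¹ * ∮ ζ in C(c, r), (j.factorial * h ^ j /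
        ∏ i ∈ range (j + 1), (ζ - (x + i * h))) * f ζ := by
  have hne : ∀ ζ ∈ sphere c r, ∀ i : ℕ, i ≤ j → ζ - (x + i * h) ≠ 0 := by
    intro ζ hζ i hi h0
    have := hx i hi
    rw [sub_eq_zero] at h0
    rw [← h0, mem_ball, mem_sphere.1 hζ] at this
    exact lt_irrefl _ this
  have hc : ContinuousOn f (sphere c r) := hf.continuousOn.mono sphere_subset_closedBall
  have e1 : (∮ ζ in C(c, r), (j.factorial * h ^ j /
        ∏ i ∈ range (j + 1), (ζ - (x + i * h))) * f ζ) =
      ∮ ζ in C(c, r), ∑ i ∈ range (j + 1), ((-1 : ℂ) ^ (j - i) * (j.choose i : ℂ)) *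
        ((ζ - (x + i * h))⁻¹ * f ζ) := by
    apply circleIntegral.integral_congr hr
    intro ζ hζ
    simp only
    rw [← pf ζ h j x (hne ζ hζ), sum_mul]
    refine sum_congr rfl fun i _ => ?_
    ring
  rw [e1, circleIntegral.integral_fun_sum, mul_sum]
  · refine sum_congr rfl fun i hi => ?_
    rw [circleIntegral.integral_const_mul]
    have h2 := hf.circleIntegral_sub_inv_smul (hx i (by simp only [Finset.mem_range] at hi; omega))
    simp only [smul_eq_mul] at h2
    rw [h2]
    have h3 : (2 * π * Complex.I : ℂ) ≠ 0 := by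
      simp [Real.pi_ne_zero]
    field_simp
  · intro i hi
    apply ContinuousOn.circleIntegrable hr
    apply ContinuousOn.mul continuousOn_const
    apply ContinuousOn.mul _ hc
    apply ContinuousOn.inv₀ (by fun_prop)
    intro ζ hζ
    exact hne ζ hζ i (by simp only [Finset.mem_range] at hi; omega)

/-- The logarithmic kernel -/
theorem log_kernel {f : ℂ → ℂ} {c : ℂ} {R r : ℝ} (hr : 0 < r) (hrR : r < R)
    (hf : DifferentiableOn ℂ f (ball c R)) {z w : ℂ} (hz : z ∈ ball c r) (hw : w ∈ ball c r)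
    (hq : ∀ ζ ∈ sphere c r, ‖(z - w) / (ζ - w)‖ < 1) :
    (z - w) * ∫ t in (0:ℝ)..1, f (w + (z - w) * t) =
      (2 * π * Complex.I : ℂ)⁻¹ * ∮ ζ in C(c, r),
        (-Complex.log (1 - (z - w) / (ζ - w))) * f ζ := by
  obtain ⟨F, hF⟩ := hf.isExactOn_ball
  have hsub : ball c r ⊆ ball c R := ball_subset_ball hrR.le
  have hcsub : closedBall c r ⊆ ball c R := closedBall_subset_ball hrR
  have hne : ∀ ζ ∈ sphere c r, ∀ x ∈ ball c r, ζ - x ≠ 0 := by
    intro ζ hζ x hx h0
    rw [sub_eq_zero] at h0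
    rw [← h0, mem_ball, mem_sphere.1 hζ] at hx
    exact lt_irrefl _ hx
  have hFd : DifferentiableOn ℂ F (closedBall c r) := fun x hx =>
    (hF x (hcsub hx)).differentiableAt.differentiableWithinAt
  have hFc : ContinuousOn F (sphere c r) := hFd.continuousOn.mono sphere_subset_closedBall
  have hfc : ContinuousOn f (sphere c r) :=
    hf.continuousOn.mono (sphere_subset_closedBall.trans hcsub)
  -- left side
  have hseg : ∀ t ∈ Set.uIcc (0:ℝ) 1, w + (z - w) * t ∈ ball c R := by
    intro t ht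
    rw [Set.uIcc_of_le zero_le_one] at ht
    have : w + (z - w) * (t : ℂ) = w + t • (z - w) := by
      rw [Complex.real_smul]; ring
    rw [this]
    exact (convex_ball c R).add_smul_sub_mem (hsub hw) (hsub hz) ht
  have hL : (z - w) * ∫ t in (0:ℝ)..1, f (w + (z - w) * t) = F z - F w := by
    have h1 : ∀ t ∈ Set.uIcc (0:ℝ) 1, HasDerivAt (fun t : ℝ => F (w + (z - w) * t))
        ((z - w) * f (w + (z - w) * t)) t := by
      intro t ht
      have h2 := hF _ (hseg t ht)
      have h3 : HasDerivAt (fun t : ℝ => w + (z - w) * (t : ℂ)) ((z - w)) t := by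
        have := ((Complex.ofRealCLM.hasDerivAt (x := t)).const_mul (z - w)).const_add w
        simpa using this
      have h4 := h2.comp_of_eq t h3 rfl
      rw [mul_comm]
      exact h4
    have h5 : ContinuousOn (fun t : ℝ => (z - w) * f (w + (z - w) * t)) (Set.uIcc (0:ℝ) 1) := by
      apply ContinuousOn.mul continuousOn_const
      apply hf.continuousOn.comp (by fun_prop)
      intro t ht
      exact hseg t ht
    rw [← intervalIntegral.integral_const_mul,
      intervalIntegral.integral_eq_sub_of_hasDerivAt h1 h5.intervalIntegrable]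
    simp
  -- right side
  have hd : ∀ ζ ∈ sphere c r, HasDerivWithinAt
      (fun ζ => (-Complex.log (1 - (z - w) / (ζ - w))) * F ζ)
      ((-Complex.log (1 - (z - w) / (ζ - w))) * f ζ -
        ((ζ - z)⁻¹ * F ζ - (ζ - w)⁻¹ * F ζ)) (sphere c r) ζ := by
    intro ζ hζ
    have a1 := hne ζ hζ w hw
    have a2 := hne ζ hζ z hz
    have hsl : 1 - (z - w) / (ζ - w) ∈ Complex.slitPlane := by
      have := Complex.mem_slitPlane_of_norm_lt_one (z := -((z - w) / (ζ - w)))
        (by rw [norm_neg]; exact hq ζ hζ)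
      rwa [← sub_eq_add_neg] at this
    have b1 : HasDerivAt (fun ζ : ℂ => 1 - (z - w) / (ζ - w)) ((z - w) / (ζ - w) ^ 2) ζ := by
      have c1 : HasDerivAt (fun ζ : ℂ => ζ - w) 1 ζ := (hasDerivAt_id ζ).sub_const w
      have c2 := ((hasDerivAt_const ζ (z - w)).div c1 a1).const_sub 1
      refine c2.congr_deriv ?_
      simp
      ring
    have b2 := (b1.clog hsl).neg.mul (hF ζ (hcsub (sphere_subset_closedBall hζ)))
    refine b2.hasDerivWithinAt.congr_deriv ?_
    have a3 : ζ - w - (z - w) ≠ 0 := by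
      have : ζ - w - (z - w) = ζ - z := by ring
      rw [this]; exact a2
    have e : (z - w) / (ζ - w) ^ 2 / (1 - (z - w) / (ζ - w)) = (ζ - z)⁻¹ - (ζ - w)⁻¹ := by
      have e1 : 1 - (z - w) / (ζ - w) = (ζ - z) / (ζ - w) := by
        field_simp
        ring
      rw [e1]
      field_simp
      ring
    simp only [Pi.neg_apply]
    rw [e]
    ring
  have h0 := circleIntegral.integral_eq_zero_of_hasDerivWithinAt hr.le hd
  have i1 : CircleIntegrable (fun ζ => (-Complex.log (1 - (z - w) / (ζ - w))) * f ζ) c r := by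
    apply ContinuousOn.circleIntegrable hr.le
    apply ContinuousOn.mul _ hfc
    apply ContinuousOn.neg
    apply ContinuousOn.clog
    · apply ContinuousOn.sub continuousOn_const
      apply ContinuousOn.div continuousOn_const (by fun_prop)
      intro ζ hζ
      exact hne ζ hζ w hw
    · intro ζ hζ
      have := Complex.mem_slitPlane_of_norm_lt_one (z := -((z - w) / (ζ - w)))
        (by rw [norm_neg]; exact hq ζ hζ)
      rwa [← sub_eq_add_neg] at this
  have i2 : ∀ x ∈ ball c r, CircleIntegrable (fun ζ => (ζ - x)⁻¹ * F ζ) c r := by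
    intro x hx
    apply ContinuousOn.circleIntegrable hr.le
    apply ContinuousOn.mul _ hFc
    apply ContinuousOn.inv₀ (by fun_prop)
    intro ζ hζ
    exact hne ζ hζ x hx
  have i3 : CircleIntegrable (fun ζ => (ζ - z)⁻¹ * F ζ - (ζ - w)⁻¹ * F ζ) c r :=
    (i2 z hz).sub (i2 w hw)
  rw [circleIntegral.integral_sub i1 i3,
    circleIntegral.integral_sub (i2 z hz) (i2 w hw)] at h0
  have h1 := hFd.circleIntegral_sub_inv_smul hz
  have h2 := hFd.circleIntegral_sub_inv_smul hw
  simp only [smul_eq_mul] at h1 h2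
  rw [h1, h2, sub_eq_zero] at h0
  rw [h0, hL]
  have h3 : (2 * π * Complex.I : ℂ) ≠ 0 := by
    simp [Real.pi_ne_zero]
  field_simp

end Pool.Agent.W176.HTN
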