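import Pool.Agent.W176.HTN.Base

/-!
# Newton interpolation of the sums of an analytic function
-/

set_option autoImplicit false

namespace Pool.Agent.W176.HTN

open Filter Finset Topology Metric
open scoped Real

theorem prod_sub_pow_le (q : ℕ → ℂ) (δ : ℝ) (D : ℕ) (h1 : ∀ i ≤ D, ‖q i‖ ≤ 1 / 2)
    (h2 : ∀ i ≤ D, ‖q i - q 0‖ ≤ i * δ) :
    ∀ j : ℕ, j ≤ D + 1 → ‖∏ i ∈ range j, q i - q 0 ^ j‖ ≤ δ * (j * (j - 1)) * (1 / 2) ^ j := by
  intro j
  induction j with
  | zero => simp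
  | succ j ih =>
    intro hj
    have ih' := ih (by omega)
    rw [prod_range_succ]
    have e : (∏ i ∈ range j, q i) * q j - q 0 ^ (j + 1) =
        (∏ i ∈ range j, q i - q 0 ^ j) * q j + q 0 ^ j * (q j - q 0) := by ring
    rw [e]
    have a1 : ‖(∏ i ∈ range j, q i - q 0 ^ j) * q j‖ ≤
        δ * (j * (j - 1)) * (1 / 2) ^ j * (1 / 2) := by
      rw [norm_mul]
      have := h1 j (by omega)
      have h0 : 0 ≤ ‖∏ i ∈ range j, q i - q 0 ^ j‖ := norm_nonneg _
      have h00 : 0 ≤ ‖q j‖ := norm_nonneg _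
      calc _ ≤ (δ * (j * (j - 1)) * (1 / 2) ^ j) * ‖q j‖ := by gcongr
        _ ≤ _ := by
          have : 0 ≤ δ * (j * (j - 1)) * (1 / 2) ^ j := le_trans h0 ih'
          gcongr
    have a2 : ‖q 0 ^ j * (q j - q 0)‖ ≤ (1 / 2) ^ j * (j * δ) := by
      rw [norm_mul, norm_pow]
      have := h1 0 (by omega)
      have h3 := h2 j (by omega)
      gcongr
    refine (norm_add_le _ _).trans ((add_le_add a1 a2).trans (le_of_eq ?_))
    push_cast
    ring

theorem sum_half (D : ℕ) : ∑ j ∈ range D, (j : ℝ) * (1 / 2) ^ (j + 1) = 1 - (D + 1) * (1 / 2) ^ D := by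
  induction D with
  | zero => simp
  | succ D ih =>
    rw [sum_range_succ, ih]
    push_cast
    ring

theorem kernel_bound (q : ℕ → ℂ) (δ : ℝ) (hδ : 0 ≤ δ) (D : ℕ) (h1 : ∀ i ≤ D, ‖q i‖ ≤ 1 / 2)
    (h2 : ∀ i ≤ D, ‖q i - q 0‖ ≤ i * δ) :
    ‖∑ j ∈ range D, (∏ i ∈ range (j + 1), q i) / ((j : ℂ) + 1) - (-Complex.log (1 - q 0))‖ ≤
      δ + (1 / 2) ^ D := by
  have e : ∑ j ∈ range D, (∏ i ∈ range (j + 1), q i) / ((j : ℂ) + 1) -
      (-Complex.log (1 - q 0)) =
      ∑ j ∈ range D, (∏ i ∈ range (j + 1), q i - q 0 ^ (j + 1)) / ((j : ℂ) + 1) +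
      (Complex.log (1 + -q 0) - Complex.logTaylor (D + 1) (-q 0)) := by
    have e1 : Complex.logTaylor (D + 1) (-q 0) = - ∑ j ∈ range D, q 0 ^ (j + 1) / ((j : ℂ) + 1) := by
      rw [Complex.logTaylor, sum_range_succ', ← sum_neg_distrib]
      simp only [Nat.cast_zero, div_zero, add_zero]
      refine sum_congr rfl fun j _ => ?_
      have : (-1 : ℂ) ^ (j + 1 + 1) * (-q 0) ^ (j + 1) = - q 0 ^ (j + 1) := by
        rw [neg_pow (q 0)]
        have : ((-1 : ℂ) ^ (j + 1)) * (-1) ^ (j + 1) = 1 := by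
          rw [← mul_pow]; norm_num
        calc (-1 : ℂ) ^ (j + 1 + 1) * ((-1) ^ (j + 1) * q 0 ^ (j + 1)) =
            -(((-1 : ℂ) ^ (j + 1)) * (-1) ^ (j + 1)) * q 0 ^ (j + 1) := by ring
          _ = _ := by rw [this]; ring
      rw [this]
      push_cast
      ring
    rw [e1, ← sub_eq_add_neg]
    have e2 : ∑ j ∈ range D, (∏ i ∈ range (j + 1), q i - q 0 ^ (j + 1)) / ((j : ℂ) + 1) =
        ∑ j ∈ range D, (∏ i ∈ range (j + 1), q i) / ((j : ℂ) + 1) -
        ∑ j ∈ range D, q 0 ^ (j + 1) / ((j : ℂ) + 1) := by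
      rw [← sum_sub_distrib]
      refine sum_congr rfl fun j _ => ?_
      ring
    rw [e2]
    ring
  rw [e]
  refine (norm_add_le _ _).trans (add_le_add ?_ ?_)
  · have h3 : ∀ j ∈ range D, ‖(∏ i ∈ range (j + 1), q i - q 0 ^ (j + 1)) / ((j : ℂ) + 1)‖ ≤
        δ * ((j : ℝ) * (1 / 2) ^ (j + 1)) := by
      intro j hj
      simp only [Finset.mem_range] at hj
      have h4 := prod_sub_pow_le q δ D h1 h2 (j + 1) (by omega)
      rw [norm_div]
      have h5 : ‖((j : ℂ) + 1)‖ = (j : ℝ) + 1 := by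
        have : ((j : ℂ) + 1) = ((j + 1 : ℕ) : ℂ) := by push_cast; ring
        rw [this, Complex.norm_natCast]
        push_cast; ring
      rw [h5, div_le_iff₀ (by positivity)]
      refine h4.trans (le_of_eq ?_)
      push_cast
      ring
    refine (norm_sum_le _ _).trans ((sum_le_sum h3).trans ?_)
    rw [← mul_sum, sum_half]
    have : (0 : ℝ) ≤ (D + 1) * (1 / 2) ^ D := by positivity
    nlinarith
  · have hq : ‖-q 0‖ ≤ 1 / 2 := by rw [norm_neg]; exact h1 0 (by omega)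
    refine (Complex.norm_log_sub_logTaylor_le D (by linarith)).trans ?_
    have b1 : ‖-q 0‖ ^ (D + 1) ≤ (1 / 2) ^ (D + 1) := by gcongr
    have b2 : (1 - ‖-q 0‖)⁻¹ ≤ 2 := by
      rw [inv_le_comm₀ (by linarith) (by norm_num)]
      linarith
    have b3 : 0 ≤ (1 - ‖-q 0‖)⁻¹ := by
      rw [inv_nonneg]; linarith
    rw [div_le_iff₀ (by positivity)]
    calc ‖-q 0‖ ^ (D + 1) * (1 - ‖-q 0‖)⁻¹ ≤ (1 / 2) ^ (D + 1) * 2 := by gcongr
      _ = (1 / 2) ^ D * 1 := by ring
      _ ≤ (1 / 2) ^ D * (D + 1) := by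
        gcongr
        have : (0 : ℝ) ≤ D := Nat.cast_nonneg D
        linarith

/-- Everything for one function -/
theorem one_fun {f g : ℂ → ℂ} {c : ℂ} {R M e : ℝ} (hR : 0 < R)
    (hf : DifferentiableOn ℂ f (ball c R)) (hg : DifferentiableOn ℂ g (ball c R))
    (hM : ∀ z ∈ ball c R, ‖f z‖ ≤ M) (he : ∀ z ∈ ball c R, ‖f z - g z‖ ≤ e)
    (N D : ℕ) (hN : 0 < N) (m : ℕ)
    (hx : ∀ i ≤ D, ‖(m : ℂ) / N + i * (1 / N) - c‖ ≤ 5 / 400 * R)
    (z : ℂ) (hz : z ∈ ball c (R / 200)) :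
    ‖(∑ j ∈ range D, (∑ i ∈ range (j + 1), (-1 : ℂ) ^ (j - i) * (j.choose i : ℂ) *
      f (((m + i : ℕ) : ℂ) / N)) * ((∏ i ∈ range (j + 1), (N * z - m - i)) /
          ((j + 1).factorial : ℂ))) / N -
        (z - (m : ℂ) / N) * ∫ t in (0:ℝ)..1, g ((m : ℂ) / N + (z - (m : ℂ) / N) * t)‖ ≤
    R / 2 * ((3 / (R * N) + (1 / 2) ^ D) * M + e) := by
  have hN' : (N : ℂ) ≠ 0 := by exact_mod_cast hN.ne'
  have hNr : (0 : ℝ) < N := by exact_mod_cast hN
  have hM0 : 0 ≤ M := (norm_nonneg _).trans (hM c (mem_ball_self hR))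
  have he0 : 0 ≤ e := (norm_nonneg _).trans (he c (mem_ball_self hR))
  have hr : 0 < R / 2 := by linarith
  have hrR : R / 2 < R := by linarith
  have hcl : closedBall c (R / 2) ⊆ ball c R := closedBall_subset_ball hrR
  have hcs : sphere c (R / 2) ⊆ ball c R := sphere_subset_closedBall.trans hcl
  have hz' : ‖z - c‖ < R / 200 := by rwa [mem_ball, dist_eq_norm] at hz
  have hxb : ∀ i ≤ D, (m : ℂ) / N + i * (1 / N) ∈ ball c (R / 2) := by
    intro i hi
    rw [mem_ball, dist_eq_norm]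
    have := hx i hi
    linarith
  have hzb : z ∈ ball c (R / 2) := by
    rw [mem_ball, dist_eq_norm]; linarith
  have hwb : (m : ℂ) / N ∈ ball c (R / 2) := by simpa using hxb 0 (by omega)
  have hlow : ∀ ζ ∈ sphere c (R / 2), ∀ i ≤ D,
      39 / 80 * R ≤ ‖ζ - ((m : ℂ) / N + i * (1 / N))‖ := by
    intro ζ hζ i hi
    have h1 := hx i hi
    have h2 : ‖ζ - c‖ = R / 2 := by rw [← dist_eq_norm]; exact hζ
    have h3 : ‖ζ - c‖ ≤ ‖ζ - ((m : ℂ) / N + i * (1 / N))‖ + ‖(m : ℂ) / N + i * (1 / N) - c‖ := by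
      have := norm_add_le (ζ - ((m : ℂ) / N + i * (1 / N))) ((m : ℂ) / N + i * (1 / N) - c)
      simpa using this
    linarith
  have hup : ∀ i ≤ D, ‖z - ((m : ℂ) / N + i * (1 / N))‖ ≤ 7 / 400 * R := by
    intro i hi
    have h1 := hx i hi
    have h3 : ‖z - ((m : ℂ) / N + i * (1 / N))‖ ≤ ‖z - c‖ + ‖(m : ℂ) / N + i * (1 / N) - c‖ := by
      have := norm_sub_le (z - c) ((m : ℂ) / N + i * (1 / N) - c)
      simpa using this
    linarith
  have hne : ∀ ζ ∈ sphere c (R / 2), ∀ i ≤ D, ζ - ((m : ℂ) / N + i * (1 / N)) ≠ 0 := by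
    intro ζ hζ i hi h0
    have := hlow ζ hζ i hi
    rw [h0, norm_zero] at this
    linarith
  set q : ℂ → ℕ → ℂ := fun ζ i => (z - ((m : ℂ) / N + i * (1 / N))) /
    (ζ - ((m : ℂ) / N + i * (1 / N))) with hqd
  have hq0 : ∀ ζ, q ζ 0 = (z - (m : ℂ) / N) / (ζ - (m : ℂ) / N) := by
    intro ζ; simp [hqd]
  have hq1 : ∀ ζ ∈ sphere c (R / 2), ∀ i ≤ D, ‖q ζ i‖ ≤ 1 / 2 := by
    intro ζ hζ i hi
    simp only [hqd]
    rw [norm_div]
    have h1 := hlow ζ hζ i hi
    have h2 := hup i hi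
    rw [div_le_iff₀ (by linarith)]
    linarith
  have hq2 : ∀ ζ ∈ sphere c (R / 2), ∀ i ≤ D, ‖q ζ i - q ζ 0‖ ≤ i * (3 / (R * N)) := by
    intro ζ hζ i hi
    have n1 := hne ζ hζ i hi
    have n2 := hne ζ hζ 0 (by omega)
    have e : q ζ i - q ζ 0 = (i * (1 / N)) * (z - ζ) /
        ((ζ - ((m : ℂ) / N + i * (1 / N))) * (ζ - ((m : ℂ) / N + (0 : ℕ) * (1 / N)))) := by
      simp only [hqd]
      rw [div_sub_div _ _ n1 n2]
      congr 1
      push_cast
      ring
    rw [e, norm_div, norm_mul, norm_mul, norm_mul, norm_div, norm_one, Complex.norm_natCast,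
      Complex.norm_natCast]
    have h1 := hlow ζ hζ i hi
    have h2 := hlow ζ hζ 0 (by omega)
    have h3 : ‖z - ζ‖ ≤ 51 / 100 * R := by
      have h4 : ‖ζ - c‖ = R / 2 := by rw [← dist_eq_norm]; exact hζ
      have h5 : ‖z - ζ‖ ≤ ‖z - c‖ + ‖ζ - c‖ := by
        have := norm_sub_le (z - c) (ζ - c)
        simpa using this
      linarith
    rw [div_le_iff₀ (by
      have : 0 < ‖ζ - ((m : ℂ) / N + i * (1 / N))‖ := by linarith
      have : 0 < ‖ζ - ((m : ℂ) / N + (0 : ℕ) * (1 / N))‖ := by linarith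
      positivity)]
    have h6 : (39 / 80 * R) * (39 / 80 * R) ≤ ‖ζ - ((m : ℂ) / N + i * (1 / N))‖ *
        ‖ζ - ((m : ℂ) / N + (0 : ℕ) * (1 / N))‖ := by gcongr
    calc (i : ℝ) * (1 / N) * ‖z - ζ‖ ≤ (i : ℝ) * (1 / N) * (51 / 100 * R) := by gcongr
      _ ≤ (i : ℝ) * (3 / (R * N)) * ((39 / 80 * R) * (39 / 80 * R)) := by
        have : (i : ℝ) * (3 / (R * N)) * ((39 / 80 * R) * (39 / 80 * R)) =
          (i : ℝ) * (1 / N) * ((3 * (39 / 80) * (39 / 80)) * R) := by
          field_simp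
        rw [this]
        gcongr
        norm_num
      _ ≤ _ := by gcongr
  -- integral representation of the sum
  have hfc : ContinuousOn f (sphere c (R / 2)) := hf.continuousOn.mono hcs
  have hgc : ContinuousOn g (sphere c (R / 2)) := hg.continuousOn.mono hcs
  have hqc : ∀ i ≤ D, ContinuousOn (fun ζ => q ζ i) (sphere c (R / 2)) := by
    intro i hi
    simp only [hqd]
    apply ContinuousOn.div continuousOn_const (by fun_prop)
    intro ζ hζ
    exact hne ζ hζ i hi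
  have hterm : ∀ j ∈ range D, (∑ i ∈ range (j + 1), (-1 : ℂ) ^ (j - i) * (j.choose i : ℂ) *
      f (((m + i : ℕ) : ℂ) / N)) * ((∏ i ∈ range (j + 1), (N * z - m - i)) /
          ((j + 1).factorial : ℂ)) / N =
      (2 * π * Complex.I : ℂ)⁻¹ * ∮ ζ in C(c, R / 2),
        ((∏ i ∈ range (j + 1), q ζ i) / ((j : ℂ) + 1)) * f ζ := by
    intro j hj
    simp only [Finset.mem_range] at hj
    have h1 := cauchyDiff hr.le (hf.mono hcl) ((m : ℂ) / N) (1 / N) j
      (fun i hi => hxb i (by omega))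
    have h2 : ∑ i ∈ range (j + 1), (-1 : ℂ) ^ (j - i) * (j.choose i : ℂ) *
        f (((m + i : ℕ) : ℂ) / N) = ∑ i ∈ range (j + 1), (-1 : ℂ) ^ (j - i) * (j.choose i : ℂ) *
        f ((m : ℂ) / N + i * (1 / N)) := by
      refine sum_congr rfl fun i _ => ?_
      congr 2
      push_cast
      field_simp
    rw [h2, h1]
    have h3 : ∀ A B C : ℂ, (2 * π * Complex.I : ℂ)⁻¹ * A * B / C =
      (2 * π * Complex.I : ℂ)⁻¹ * ((B / C) * A) := by intro A B C; ring
    rw [h3, ← circleIntegral.integral_const_mul]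
    congr 1
    apply circleIntegral.integral_congr hr.le
    intro ζ hζ
    simp only
    have h4 : ∏ i ∈ range (j + 1), (N * z - m - i) =
        (N : ℂ) ^ (j + 1) * ∏ i ∈ range (j + 1), (z - ((m : ℂ) / N + i * (1 / N))) := by
      have : ((N : ℂ) ^ (j + 1)) = ∏ i ∈ range (j + 1), (N : ℂ) := by simp
      rw [this, ← prod_mul_distrib]
      refine prod_congr rfl fun i _ => ?_
      field_simp
      ring
    have h5 : ∏ i ∈ range (j + 1), q ζ i =
        (∏ i ∈ range (j + 1), (z - ((m : ℂ) / N + i * (1 / N)))) /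
        (∏ i ∈ range (j + 1), (ζ - ((m : ℂ) / N + i * (1 / N)))) := by
      rw [← prod_div_distrib]
    have h6 : (∏ i ∈ range (j + 1), (ζ - ((m : ℂ) / N + i * (1 / N)))) ≠ 0 := by
      rw [prod_ne_zero_iff]
      intro i hi
      exact hne ζ hζ i (by simp only [Finset.mem_range] at hi; omega)
    rw [h4, h5]
    have h7 : ((j + 1).factorial : ℂ) = ((j : ℂ) + 1) * j.factorial := by
      rw [Nat.factorial_succ]; push_cast; ring
    have h8 : ((j : ℂ) + 1) ≠ 0 := by exact_mod_cast Nat.succ_ne_zero j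
    have h9 : (j.factorial : ℂ) ≠ 0 := by exact_mod_cast j.factorial_ne_zero
    rw [h7]
    generalize (∏ i ∈ range (j + 1), (ζ - ((m : ℂ) / N + i * (1 / N)))) = B at h6 ⊢
    generalize (∏ i ∈ range (j + 1), (z - ((m : ℂ) / N + i * (1 / N)))) = A
    rw [pow_succ, one_div, inv_pow]
    field_simp
  have hsum : (∑ j ∈ range D, (∑ i ∈ range (j + 1), (-1 : ℂ) ^ (j - i) * (j.choose i : ℂ) *
      f (((m + i : ℕ) : ℂ) / N)) * ((∏ i ∈ range (j + 1), (N * z - m - i)) /
          ((j + 1).factorial : ℂ))) / N =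
      (2 * π * Complex.I : ℂ)⁻¹ * ∮ ζ in C(c, R / 2),
        (∑ j ∈ range D, (∏ i ∈ range (j + 1), q ζ i) / ((j : ℂ) + 1)) * f ζ := by
    rw [sum_div, sum_congr rfl hterm, ← mul_sum, ← circleIntegral.integral_fun_sum]
    · congr 1
      apply circleIntegral.integral_congr hr.le
      intro ζ _
      simp only
      rw [sum_mul]
    · intro j hj
      simp only [Finset.mem_range] at hj
      apply ContinuousOn.circleIntegrable hr.le
      apply ContinuousOn.mul _ hfc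
      apply ContinuousOn.div_const
      apply continuousOn_finsetProd
      intro i hi
      simp only [Finset.mem_range] at hi
      exact hqc i (by omega)
  have hker := log_kernel hr hrR hg hzb hwb (by
    intro ζ hζ
    have := hq1 ζ hζ 0 (by omega)
    rw [hq0] at this
    linarith)
  rw [hsum, hker]
  have i1 : CircleIntegrable (fun ζ => (∑ j ∈ range D, (∏ i ∈ range (j + 1), q ζ i) /
      ((j : ℂ) + 1)) * f ζ) c (R / 2) := by
    apply ContinuousOn.circleIntegrable hr.le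
    apply ContinuousOn.mul _ hfc
    apply continuousOn_finsetSum
    intro j hj
    simp only [Finset.mem_range] at hj
    apply ContinuousOn.div_const
    apply continuousOn_finsetProd
    intro i hi
    simp only [Finset.mem_range] at hi
    exact hqc i (by omega)
  have i2 : CircleIntegrable (fun ζ => (-Complex.log (1 - (z - (m : ℂ) / N) /
      (ζ - (m : ℂ) / N))) * g ζ) c (R / 2) := by
    apply ContinuousOn.circleIntegrable hr.le
    apply ContinuousOn.mul _ hgc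
    apply ContinuousOn.neg
    apply ContinuousOn.clog
    · apply ContinuousOn.sub continuousOn_const
      have := hqc 0 (by omega)
      simp only [hq0] at this
      exact this
    · intro ζ hζ
      have h1 := hq1 ζ hζ 0 (by omega)
      rw [hq0] at h1
      have := Complex.mem_slitPlane_of_norm_lt_one
        (z := -((z - (m : ℂ) / N) / (ζ - (m : ℂ) / N))) (by rw [norm_neg]; linarith)
      rwa [← sub_eq_add_neg] at this
  rw [← mul_sub, ← circleIntegral.integral_sub i1 i2, ← smul_eq_mul]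
  apply circleIntegral.norm_two_pi_i_inv_smul_integral_le_of_norm_le_const hr.le
  intro ζ hζ
  have hk := kernel_bound (q ζ) (3 / (R * N)) (by positivity) D (hq1 ζ hζ) (hq2 ζ hζ)
  have eq0 : (∑ j ∈ range D, (∏ i ∈ range (j + 1), q ζ i) / ((j : ℂ) + 1)) * f ζ -
      (-Complex.log (1 - (z - (m : ℂ) / N) / (ζ - (m : ℂ) / N))) * g ζ =
      (∑ j ∈ range D, (∏ i ∈ range (j + 1), q ζ i) / ((j : ℂ) + 1) -
        (-Complex.log (1 - q ζ 0))) * f ζ +
      (-Complex.log (1 - q ζ 0)) * (f ζ - g ζ) := by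
    rw [hq0]; ring
  rw [eq0]
  refine (norm_add_le _ _).trans (add_le_add ?_ ?_)
  · rw [norm_mul]
    have := hM ζ (hcs hζ)
    gcongr
  · rw [norm_mul, norm_neg]
    have h1 := hq1 ζ hζ 0 (by omega)
    have h2 := Complex.norm_log_one_add_half_le_self (z := -q ζ 0) (by rwa [norm_neg])
    rw [← sub_eq_add_neg, norm_neg] at h2
    have h3 := he ζ (hcs hζ)
    have h4 : ‖Complex.log (1 - q ζ 0)‖ ≤ 1 := by linarith
    calc _ ≤ 1 * e := by gcongr
      _ = e := one_mul e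

theorem newt : Pool.Agent.W711.HT.S_NEWT := by
  intro R hR
  refine ⟨R / 100, by positivity, by linarith, ?_⟩
  intro y₀ K lam lam' M h1 h2 h3 h4 m hm
  refine ⟨fun N j k => ∑ i ∈ range (j + 1), (-1 : ℂ) ^ (j - i) * (j.choose i : ℂ) *
      lam N k (((m N + i : ℕ) : ℂ) / N), fun N => ⌊2 * (R / 100) * N⌋₊, fun _ _ _ => rfl, ?_, ?_⟩
  · filter_upwards [hm, eventually_gt_atTop 0] with N hmN hN k d hd
    have hNr : (0 : ℝ) < N := by exact_mod_cast hN
    rw [abs_le] at hmN hd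
    have a1 : (m N : ℝ) ≤ (y₀ - R / 100 + R / 100 / 4) * N := by
      rw [← div_le_iff₀ hNr]; linarith [hmN.2]
    have a2 : (y₀ - R / 100 - R / 100 / 4) * N ≤ (m N : ℝ) := by
      rw [← le_div_iff₀ hNr]; linarith [hmN.1]
    have a3 : (d : ℝ) ≤ (y₀ + R / 100 / 2) * N := by
      rw [← div_le_iff₀ hNr]; linarith [hd.2]
    have a4 : (y₀ - R / 100 / 2) * N ≤ (d : ℝ) := by
      rw [← le_div_iff₀ hNr]; linarith [hd.1]
    have hRN : 0 < R * N := by positivity
    have hle : m N ≤ d := by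
      have : (m N : ℝ) ≤ d := by nlinarith
      exact_mod_cast this
    have hD : d - m N ≤ ⌊2 * (R / 100) * N⌋₊ := by
      apply Nat.le_floor
      rw [Nat.cast_sub hle]
      nlinarith
    rw [sum_Ico_eq_sum_range, newton_sum (fun i => lam N k (((m N + i : ℕ) : ℂ) / N)) _ _ hD]
    refine sum_congr rfl fun j _ => ?_
    rw [Nat.cast_sub hle]
  · intro ε hε
    have hMl : Tendsto (fun N : ℕ => (3 / (R * (N : ℝ)) + (1 / 2 : ℝ) ^ ⌊2 * (R / 100) * (N : ℝ)⌋₊)
        * |M| * (R / 2)) atTop (𝓝 0) := by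
      have t1 : Tendsto (fun N : ℕ => 3 / (R * (N : ℝ))) atTop (𝓝 0) := by
        apply Tendsto.div_atTop tendsto_const_nhds
        exact Tendsto.const_mul_atTop hR tendsto_natCast_atTop_atTop
      have t2 : Tendsto (fun N : ℕ => (1 / 2 : ℝ) ^ ⌊2 * (R / 100) * (N : ℝ)⌋₊) atTop (𝓝 0) := by
        have t3 : Tendsto (fun N : ℕ => ⌊2 * (R / 100) * (N : ℝ)⌋₊) atTop atTop :=
          tendsto_nat_floor_atTop.comp
            (Tendsto.const_mul_atTop (by positivity) tendsto_natCast_atTop_atTop)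
        exact (tendsto_pow_atTop_nhds_zero_of_lt_one (by norm_num) (by norm_num)).comp t3
      have := ((t1.add t2).mul_const |M|).mul_const (R / 2)
      simpa using this
    have hev := hMl.eventually_le_const (u := ε / 2) (by linarith)
    filter_upwards [hm, eventually_gt_atTop 0, h1, h3, h4 (ε / R) (by positivity), hev]
      with N hmN hN hdN hMN heN hεN k z hz
    have hNr : (0 : ℝ) < N := by exact_mod_cast hN
    have hN' : (N : ℂ) ≠ 0 := by exact_mod_cast hN.ne'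
    have key := one_fun hR (hdN k) (h2 k) (fun z hz => (hMN k z hz).trans (le_abs_self M)) (heN k)
      N ⌊2 * (R / 100) * (N : ℝ)⌋₊ hN (m N) ?_ z
      (by have : R / 100 / 2 = R / 200 := by ring
          rwa [this] at hz)
    · refine key.trans ?_
      have : R / 2 * ((3 / (R * N) + (1 / 2) ^ ⌊2 * (R / 100) * (N : ℝ)⌋₊) * |M| + ε / R) =
        (3 / (R * (N : ℝ)) + (1 / 2 : ℝ) ^ ⌊2 * (R / 100) * (N : ℝ)⌋₊) * |M| * (R / 2) + ε / 2 := by
        field_simp
      rw [this]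
      linarith
    · intro i hi
      have hi' : (i : ℝ) ≤ 2 * (R / 100) * N :=
        (Nat.cast_le.2 hi).trans (Nat.floor_le (by positivity))
      have e : (m N : ℂ) / N + i * (1 / N) - (y₀ : ℂ) =
          (((m N : ℝ) / N + i / N - y₀ : ℝ) : ℂ) := by
        push_cast
        ring
      rw [e, Complex.norm_real, Real.norm_eq_abs, abs_le]
      rw [abs_le] at hmN
      have b1 : (i : ℝ) / N ≤ 2 * (R / 100) := by rw [div_le_iff₀ hNr]; exact hi'
      have b2 : (0 : ℝ) ≤ (i : ℝ) / N := by positivity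
      constructor
      · linarith [hmN.1, hmN.2]
      · linarith [hmN.1, hmN.2]

end Pool.Agent.W176.HTN
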